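import Pool.Agent.N290.RK.Stm

/-!
# Project RK: the tail of the kernel integral (TL)
-/

set_option autoImplicit false

open Complex MeasureTheory Set Filter Topology
open scoped ENNReal

namespace Pool.Agent.N458.RK

open Pool.Agent.N290.RJ Pool.Agent.N290.RK

theorem inv_int (a b : ℝ) (ha : 0 < a) (hab : a ≤ b) :
    ∫⁻ t in Ioc a b, ENNReal.ofReal (1 / t) = ENNReal.ofReal (Real.log (b / a)) := by
  have hb : 0 < b := ha.trans_le hab
  have h1 : ∫ t in Ioc a b, 1 / t = Real.log (b / a) := by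
    rw [← intervalIntegral.integral_of_le hab, integral_one_div_of_pos ha hb]
  rw [← h1, ofReal_integral_eq_lintegral_ofReal]
  · have h2 : IntervalIntegrable (fun t : ℝ => 1 / t) volume a b := by
      refine intervalIntegral.intervalIntegrable_one_div (fun x hx => ?_) continuousOn_id
      rw [uIcc_of_le hab] at hx
      exact (ha.trans_le hx.1).ne'
    exact (intervalIntegrable_iff_integrableOn_Ioc_of_le hab).1 h2
  · filter_upwards [ae_restrict_mem measurableSet_Ioc] with t ht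
    exact one_div_nonneg.2 (ha.trans ht.1).le

theorem TL_of (d : ℕ) (h9 : C9 d) : Pool.Agent.N290.RK.TL d := by
  obtain ⟨C, hC, h9⟩ := h9
  intro K ω hK hω hfin η hη
  obtain ⟨hmono, h01, -⟩ := hω
  -- the choice of `r`
  have hε : ENNReal.ofReal (η / (5 * C)) ≠ 0 := by
    rw [Ne, ENNReal.ofReal_eq_zero, not_le]; positivity
  obtain ⟨δ, hδ, hδ2⟩ := exists_pos_setLIntegral_lt_of_measure_lt hfin hε
  obtain ⟨r, hr0, hr1, hrA⟩ : ∃ r : ℝ, 0 < r ∧ r ≤ 1 / 2 ∧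
      ∫⁻ t in Ioo (0 : ℝ) r, ENNReal.ofReal (ω t ^ 2 / t) ≤ ENNReal.ofReal (η / (5 * C)) := by
    obtain ⟨δ', hδ'0, hδ'⟩ : ∃ δ' : ℝ, 0 < δ' ∧ ENNReal.ofReal δ' < δ := by
      obtain ⟨x, hx0, hx⟩ := ENNReal.lt_iff_exists_nnreal_btwn.1 hδ
      refine ⟨x, ?_, ?_⟩
      · exact_mod_cast hx0
      · rw [ENNReal.ofReal_coe_nnreal]; exact hx
    refine ⟨min δ' (1 / 2), by positivity, min_le_right _ _, ?_⟩
    have h1 : volume.restrict (Ioo (0 : ℝ) 1) (Ioo (0 : ℝ) (min δ' (1 / 2))) < δ := by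
      refine (Measure.restrict_apply_le _ _).trans_lt ?_
      rw [Real.volume_Ioo, sub_zero]
      exact (ENNReal.ofReal_le_ofReal (min_le_left _ _)).trans_lt hδ'
    have h2 := (hδ2 _ h1).le
    rw [Measure.restrict_restrict measurableSet_Ioo, inter_eq_self_of_subset_left] at h2
    · exact h2
    · exact Ioo_subset_Ioo_right ((min_le_right _ _).trans (by norm_num))
  obtain ⟨A, hA⟩ : ∃ A, A = ∫⁻ t in Ioo (0 : ℝ) r, ENNReal.ofReal (ω t ^ 2 / t) := ⟨_, rfl⟩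
  rw [← hA] at hrA
  have hκ0 : 0 < r ^ 2 := by positivity
  have hκr : r ^ 2 ≤ r := by nlinarith
  refine ⟨r ^ 2, hκ0, fun z hz => ?_⟩
  obtain ⟨m, hm⟩ : ∃ m, m = ω (r ^ 2) := ⟨_, rfl⟩
  have hm0 : 0 ≤ m := by rw [hm]; exact (h01 _).1
  rcases hm0.eq_or_lt with hm1 | hmp
  · -- the function vanishes near `0`
    have h1 : ∀ w : E d, ENNReal.ofReal ((if 1 - N w ≤ r ^ 2 then ω (1 - N w) ^ 2 else 0) * ker z w) =
        0 := by
      intro w
      split_ifs with hw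
      · have h2 := hmono hw
        rw [← hm, ← hm1] at h2
        have h3 : ω (1 - N w) = 0 := le_antisymm h2 (h01 _).1
        rw [h3]
        simp
      · simp
    simp only [h1]
    simp
  -- the general case
  obtain ⟨φ, hφ⟩ : ∃ φ : ℝ → ℝ, φ = fun t => min (ω t ^ 2) (m ^ 2) / m ^ 2 := ⟨_, rfl⟩
  have hm2 : 0 < m ^ 2 := by positivity
  have hφ0 : ∀ t, 0 ≤ φ t := by
    intro t
    rw [hφ]
    positivity
  have hφ1 : ∀ t, φ t ≤ 1 := by
    intro t
    rw [hφ]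
    exact (div_le_one hm2).2 (min_le_right _ _)
  have hφm : Monotone φ := by
    intro s t hst
    rw [hφ]
    show min (ω s ^ 2) (m ^ 2) / m ^ 2 ≤ min (ω t ^ 2) (m ^ 2) / m ^ 2
    have h1 : ω s ^ 2 ≤ ω t ^ 2 := pow_le_pow_left₀ (h01 s).1 (hmono hst) 2
    gcongr
  have hmφ : ∀ t, m ^ 2 * φ t = min (ω t ^ 2) (m ^ 2) := by
    intro t
    rw [hφ]
    show m ^ 2 * (min (ω t ^ 2) (m ^ 2) / m ^ 2) = _
    field_simp
  have hstep1 : ∫⁻ w in B d, ENNReal.ofReal ((if 1 - N w ≤ r ^ 2 then ω (1 - N w) ^ 2 else 0) *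
      ker z w) ≤ ENNReal.ofReal (m ^ 2) * ∫⁻ w in B d, ENNReal.ofReal (φ (1 - N w) * ker z w) := by
    rw [← lintegral_const_mul' _ _ ENNReal.ofReal_ne_top]
    refine lintegral_mono fun w => ?_
    rw [← ENNReal.ofReal_mul hm2.le]
    refine ENNReal.ofReal_le_ofReal ?_
    rw [← mul_assoc, hmφ]
    refine mul_le_mul_of_nonneg_right ?_ (ker_nonneg _ _)
    split_ifs with hw
    · have h2 := hmono hw
      rw [← hm] at h2
      exact le_min le_rfl (pow_le_pow_left₀ (h01 _).1 h2 2)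
    · positivity
  have hstep2 := h9 φ hφm hφ0 hφ1 z hz
  -- logarithms
  obtain ⟨ℓ, hℓ⟩ : ∃ ℓ, ℓ = Real.log (1 / r) := ⟨_, rfl⟩
  have hℓ1 : 1 ≤ 2 * ℓ := by
    have h1 : Real.log 2 ≤ ℓ := by
      rw [hℓ]
      apply Real.log_le_log (by norm_num)
      rw [le_div_iff₀ hr0]
      linarith
    have h2 := Real.log_two_gt_d9
    linarith
  have hℓ0 : 0 ≤ ℓ := by linarith
  have hB1 : ENNReal.ofReal (m ^ 2) * ENNReal.ofReal ℓ ≤ A := by
    have h1 := inv_int (r ^ 2) r hκ0 hκr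
    have h2 : r / r ^ 2 = 1 / r := by field_simp
    rw [h2, ← hℓ] at h1
    rw [← h1, ← lintegral_const_mul' _ _ ENNReal.ofReal_ne_top, hA]
    rw [← Measure.restrict_congr_set (Ioo_ae_eq_Ioc (μ := (volume : Measure ℝ)) (a := r ^ 2) (b := r))]
    calc ∫⁻ t in Ioo (r ^ 2) r, ENNReal.ofReal (m ^ 2) * ENNReal.ofReal (1 / t)
        ≤ ∫⁻ t in Ioo (r ^ 2) r, ENNReal.ofReal (ω t ^ 2 / t) := by
          refine setLIntegral_mono' measurableSet_Ioo fun t ht => ?_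
          have ht0 : 0 < t := hκ0.trans ht.1
          rw [← ENNReal.ofReal_mul hm2.le, mul_one_div]
          refine ENNReal.ofReal_le_ofReal ?_
          have h3 : m ^ 2 ≤ ω t ^ 2 := by
            rw [hm]
            exact pow_le_pow_left₀ (h01 _).1 (hmono ht.1.le) 2
          gcongr
      _ ≤ ∫⁻ t in Ioo (0 : ℝ) r, ENNReal.ofReal (ω t ^ 2 / t) :=
          lintegral_mono_set (Ioo_subset_Ioo_left hκ0.le)
  have hB2 : ENNReal.ofReal (m ^ 2) * ∫⁻ t in Ioo (0 : ℝ) 1, ENNReal.ofReal (φ t / t) ≤ 3 * A := by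
    rw [← lintegral_const_mul' _ _ ENNReal.ofReal_ne_top]
    have hsub : Ioo (0 : ℝ) 1 ⊆ Ioo (0 : ℝ) (r ^ 2) ∪ Ico (r ^ 2) 1 := by
      intro t ht
      rcases lt_or_ge t (r ^ 2) with h | h
      · exact Or.inl ⟨ht.1, h⟩
      · exact Or.inr ⟨h, ht.2⟩
    refine (lintegral_mono_set hsub).trans ((lintegral_union_le _ _ _).trans ?_)
    have h1 : ∫⁻ t in Ioo (0 : ℝ) (r ^ 2), ENNReal.ofReal (m ^ 2) * ENNReal.ofReal (φ t / t) ≤ A := by
      rw [hA]
      refine le_trans (setLIntegral_mono' measurableSet_Ioo fun t ht => ?_)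
        (lintegral_mono_set (Ioo_subset_Ioo_right hκr))
      rw [← ENNReal.ofReal_mul hm2.le, ← mul_div_assoc, hmφ]
      refine ENNReal.ofReal_le_ofReal ?_
      have := ht.1
      gcongr
      exact min_le_left _ _
    have h2 : ∫⁻ t in Ico (r ^ 2) 1, ENNReal.ofReal (m ^ 2) * ENNReal.ofReal (φ t / t) ≤ 2 * A := by
      have h3 := inv_int (r ^ 2) 1 hκ0 (by nlinarith)
      have h4 : Real.log (1 / r ^ 2) = 2 * ℓ := by
        rw [hℓ, ← one_div_pow, Real.log_pow]; norm_num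
      rw [h4] at h3
      rw [Measure.restrict_congr_set (Ico_ae_eq_Ioc (μ := (volume : Measure ℝ)) (a := r ^ 2) (b := 1))]
      calc ∫⁻ t in Ioc (r ^ 2) 1, ENNReal.ofReal (m ^ 2) * ENNReal.ofReal (φ t / t)
          ≤ ∫⁻ t in Ioc (r ^ 2) 1, ENNReal.ofReal (m ^ 2) * ENNReal.ofReal (1 / t) := by
            refine setLIntegral_mono' measurableSet_Ioc fun t ht => ?_
            have ht0 : 0 < t := hκ0.trans ht.1
            have h5 := hφ1 t
            gcongr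
        _ = ENNReal.ofReal (m ^ 2) * ENNReal.ofReal (2 * ℓ) := by
            rw [lintegral_const_mul' _ _ ENNReal.ofReal_ne_top, h3]
        _ = 2 * (ENNReal.ofReal (m ^ 2) * ENNReal.ofReal ℓ) := by
            rw [ENNReal.ofReal_mul (by norm_num), ENNReal.ofReal_ofNat]
            ring
        _ ≤ 2 * A := by gcongr
    calc _ ≤ A + 2 * A := add_le_add h1 h2
      _ = 3 * A := by ring
  have hB3 : ENNReal.ofReal (m ^ 2) ≤ 2 * A := by
    calc ENNReal.ofReal (m ^ 2) = ENNReal.ofReal (m ^ 2) * ENNReal.ofReal 1 := by simp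
      _ ≤ ENNReal.ofReal (m ^ 2) * ENNReal.ofReal (2 * ℓ) := by gcongr
      _ = 2 * (ENNReal.ofReal (m ^ 2) * ENNReal.ofReal ℓ) := by
          rw [ENNReal.ofReal_mul (by norm_num), ENNReal.ofReal_ofNat]
          ring
      _ ≤ 2 * A := by gcongr
  calc ∫⁻ w in B d, ENNReal.ofReal ((if 1 - N w ≤ r ^ 2 then ω (1 - N w) ^ 2 else 0) * ker z w)
      ≤ ENNReal.ofReal (m ^ 2) * ∫⁻ w in B d, ENNReal.ofReal (φ (1 - N w) * ker z w) := hstep1
    _ ≤ ENNReal.ofReal (m ^ 2) * (ENNReal.ofReal C *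
        (1 + ∫⁻ t in Ioo (0 : ℝ) 1, ENNReal.ofReal (φ t / t))) := by gcongr
    _ = ENNReal.ofReal C * (ENNReal.ofReal (m ^ 2) +
        ENNReal.ofReal (m ^ 2) * ∫⁻ t in Ioo (0 : ℝ) 1, ENNReal.ofReal (φ t / t)) := by ring
    _ ≤ ENNReal.ofReal C * (2 * A + 3 * A) := by gcongr
    _ = ENNReal.ofReal (5 * C) * A := by
        rw [ENNReal.ofReal_mul (by norm_num), ENNReal.ofReal_ofNat]
        ring
    _ ≤ ENNReal.ofReal (5 * C) * ENNReal.ofReal (η / (5 * C)) := by gcongr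
    _ = ENNReal.ofReal η := by
        rw [← ENNReal.ofReal_mul (by positivity), mul_div_cancel₀]
        positivity

end Pool.Agent.N458.RK
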